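import Pool.Agent.Lib.MP_439fea_co.Main

open Pool.Agent.Lib.MP_439fea_co

theorem Pool.Agent.Results.MP_439fea_co.PolyGap.result :
    ∃ δ : ℝ, 0 < δ ∧ ∃ n₀ : ℕ, ∀ n ≥ n₀,
      ∃ A : Finset (EuclideanSpace ℝ (Fin 2)), A.card = n ∧ ∃ d₁ : ℝ,
        (∃ d₂ : ℝ, d₂ ≠ d₁ ∧ 0 < pairs A d₂) ∧
        ∀ d : ℝ, d ≠ d₁ → (pairs A d : ℝ) + (n : ℝ) ^ (1 + δ) ≤ pairs A d₁ :=
  main
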