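import Pool.Agent.Lib.MP_439fea_co.Pw.Main

open Pool.Agent.Lib.MP_439fea_co

theorem Pool.Agent.Results.MP_439fea_co.PowerSaving.result :
    ∃ c : ℝ, 0 < c ∧ ∃ n₀ : ℕ, ∀ (A : Finset (EuclideanSpace ℝ (Fin 2))) (d : ℝ),
      n₀ ≤ A.card → (pairs A d : ℝ) ≤ (A.card : ℝ) ^ ((4 / 3 : ℝ) - c) :=
  Pw.main
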