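import Pool.Agent.Lib.MP_439fea_co.UFin

open Pool.Agent.Lib.MP_439fea_co

theorem Pool.Agent.Results.MP_439fea_co.UnitReduction.result :
    ∃ C : ℝ, ∃ n₀ : ℕ, ∀ n ≥ n₀,
      ∀ (B : Finset (EuclideanSpace ℝ (Fin 2))) (d : ℝ), B.card = n →
        ∃ A : Finset (EuclideanSpace ℝ (Fin 2)), A.card = n ∧ ∃ d₁ : ℝ,
          (∃ d₂ : ℝ, d₂ ≠ d₁ ∧ 0 < pairs A d₂) ∧
          ∀ d' : ℝ, d' ≠ d₁ → (pairs A d' : ℝ) +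
            (pairs B d : ℝ) * Real.exp (-(C * Real.log n ^ (7 / 8 : ℝ))) ≤ pairs A d₁ :=
  U.main
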